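import Mathlib

set_option autoImplicit false

/-!
# A corruption lemma for sets which are closed under mixtures

Random disjoint sets `x, y`: `D` says for each `j` whether `j` may be in `x` or in `y`, and `z` if it
is in this set. A set `R` of pairs which is closed under mixtures has a part of the pairs with
exactly one common element which is comparable to its part of the disjoint pairs, up to an
exponentially small term.
-/

namespace Pool.Agent.Helper68K9.TB

open Finset

variable {m : ℕ}

/-- the first set -/
def cx (D z : Fin m → Bool) : Fin m → Bool := fun j => D j && z j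

/-- the second set -/
def cy (D z : Fin m → Bool) : Fin m → Bool := fun j => !D j && z j

/-- mixture of two sets -/
def mix (s x x' : Fin m → Bool) : Fin m → Bool := fun j => if s j then x j else x' j

open Classical in
/-- auxiliary numbers: `(a, b)` at the place `i` -/
noncomputable def NN (R : (Fin m → Bool) → (Fin m → Bool) → Prop) (D : Fin m → Bool) (i : Fin m)
    (a b : Bool) : ℕ :=
  (univ.filter fun z : Fin m → Bool => z i = false ∧
    R (Function.update (cx D z) i a) (Function.update (cy D z) i b)).card

open Classical in
/-- disjoint pairs -/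
noncomputable def nn (R : (Fin m → Bool) → (Fin m → Bool) → Prop) (D : Fin m → Bool) : ℕ :=
  (univ.filter fun z : Fin m → Bool => R (cx D z) (cy D z)).card

open Classical in
/-- disjoint pairs with `z i = b` -/
noncomputable def n1 (R : (Fin m → Bool) → (Fin m → Bool) → Prop) (D : Fin m → Bool) (i : Fin m)
    (b : Bool) : ℕ :=
  (univ.filter fun z : Fin m → Bool => z i = b ∧ R (cx D z) (cy D z)).card

open Classical in
/-- pairs with the common element `i` -/
noncomputable def yy (R : (Fin m → Bool) → (Fin m → Bool) → Prop) (D : Fin m → Bool) (i : Fin m) :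
    ℕ :=
  (univ.filter fun z : Fin m → Bool =>
    R (Function.update (cx D z) i true) (Function.update (cy D z) i true)).card

theorem four {R : (Fin m → Bool) → (Fin m → Bool) → Prop} {D : Fin m → Bool} {i : Fin m}
    (sA sB : Fin m → Bool) (hA : sA i = true) (hB : sB i = false)
    (hmix : ∀ x y x' y', R x y → R x' y' → R (mix sA x x') (mix sB y y')) :
    NN R D i true false * NN R D i false true ≤ NN R D i true true * NN R D i false false := by
  classical
  unfold NN
  rw [← card_product, ← card_product]
  obtain ⟨σ, hσ⟩ : ∃ σ : Fin m → Bool, σ = fun j => if D j then sA j else sB j := ⟨_, rfl⟩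
  refine card_le_card_of_injOn (fun p => (mix σ p.1 p.2, mix σ p.2 p.1)) ?_ ?_
  · rintro ⟨z, z'⟩ hp
    rw [mem_coe, mem_product, mem_filter, mem_filter] at hp
    obtain ⟨⟨-, h1, h2⟩, -, h3, h4⟩ := hp
    simp only at h1 h2 h3 h4
    rw [mem_coe, mem_product, mem_filter, mem_filter]
    refine ⟨⟨mem_univ _, ?_, ?_⟩, mem_univ _, ?_, ?_⟩
    · simp only [mix, h1, h3, ite_self]
    · have h := hmix _ _ _ _ h2 h4
      convert h using 1
      · funext j
        by_cases hj : j = i
        · subst hj
          simp [mix, hA]
        · simp only [mix, Function.update_of_ne hj, cx, hσ]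
          by_cases hD : D j = true <;> simp [hD]
      · funext j
        by_cases hj : j = i
        · subst hj
          simp [mix, hB]
        · simp only [mix, Function.update_of_ne hj, cy, hσ]
          by_cases hD : D j = true <;> simp [hD]
    · simp only [mix, h1, h3, ite_self]
    · have h := hmix _ _ _ _ h4 h2
      convert h using 1
      · funext j
        by_cases hj : j = i
        · subst hj
          simp [mix, hA]
        · simp only [mix, Function.update_of_ne hj, cx, hσ]
          by_cases hD : D j = true <;> simp [hD]
      · funext j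
        by_cases hj : j = i
        · subst hj
          simp [mix, hB]
        · simp only [mix, Function.update_of_ne hj, cy, hσ]
          by_cases hD : D j = true <;> simp [hD]
  · rintro ⟨z, z'⟩ - ⟨w, w'⟩ - h
    obtain ⟨h1, h2⟩ := Prod.ext_iff.1 h
    simp only at h1 h2
    refine Prod.ext ?_ ?_
    · funext j
      have e1 := congrFun h1 j
      have e2 := congrFun h2 j
      simp only [mix] at e1 e2
      by_cases hj : σ j = true
      · simpa [hj] using e1
      · simpa [hj] using e2
    · funext j
      have e1 := congrFun h1 j
      have e2 := congrFun h2 j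
      simp only [mix] at e1 e2
      by_cases hj : σ j = true
      · simpa [hj] using e2
      · simpa [hj] using e1

theorem n1_false (R : (Fin m → Bool) → (Fin m → Bool) → Prop) (D : Fin m → Bool) (i : Fin m) :
    n1 R D i false = NN R D i false false := by
  classical
  unfold n1 NN
  congr 1
  refine filter_congr fun z _ => ?_
  refine and_congr_right fun hz => ?_
  have e1 : Function.update (cx D z) i false = cx D z := by
    rw [Function.update_eq_self_iff]
    simp [cx, hz]
  have e2 : Function.update (cy D z) i false = cy D z := by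
    rw [Function.update_eq_self_iff]
    simp [cy, hz]
  rw [e1, e2]

theorem n1_true (R : (Fin m → Bool) → (Fin m → Bool) → Prop) (D : Fin m → Bool) (i : Fin m) :
    n1 R D i true = NN R D i (D i) (!D i) := by
  classical
  unfold n1 NN
  have key : ∀ z : Fin m → Bool, z i = true → ∀ c : Bool,
      Function.update (cx D (Function.update z i c)) i (D i) = cx D z ∧
      Function.update (cy D (Function.update z i c)) i (!D i) = cy D z := by
    intro z hz c
    constructor
    · funext j
      by_cases hj : j = i
      · subst hj
        simp [cx, hz]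
      · simp [cx, Function.update_of_ne hj]
    · funext j
      by_cases hj : j = i
      · subst hj
        simp [cy, hz]
      · simp [cy, Function.update_of_ne hj]
  refine card_bij' (fun z _ => Function.update z i false) (fun z _ => Function.update z i true)
    ?_ ?_ ?_ ?_
  · intro z hz
    obtain ⟨-, h1, h2⟩ := mem_filter.1 hz
    refine mem_filter.2 ⟨mem_univ _, by simp, ?_⟩
    rw [(key z h1 false).1, (key z h1 false).2]
    exact h2
  · intro z hz
    obtain ⟨-, h1, h2⟩ := mem_filter.1 hz
    refine mem_filter.2 ⟨mem_univ _, by simp, ?_⟩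
    have h3 := key (Function.update z i true) (by simp) false
    rw [Function.update_idem] at h3
    have h4 : Function.update z i false = z := by
      rw [Function.update_eq_self_iff, h1]
    rw [h4] at h3
    rw [← h3.1, ← h3.2]
    exact h2
  · intro z hz
    obtain ⟨-, h1, h2⟩ := mem_filter.1 hz
    simp only [Function.update_idem]
    rw [Function.update_eq_self_iff, h1]
  · intro z hz
    obtain ⟨-, h1, h2⟩ := mem_filter.1 hz
    simp only [Function.update_idem]
    rw [Function.update_eq_self_iff, h1]

/-- change `D` at `i` -/
def flip (i : Fin m) (D : Fin m → Bool) : Fin m → Bool := Function.update D i (!D i)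

theorem flip_flip (i : Fin m) (D : Fin m → Bool) : flip i (flip i D) = D := by
  funext j
  by_cases hj : j = i
  · subst hj
    simp [flip]
  · simp [flip, Function.update_of_ne hj]

theorem NN_flip (R : (Fin m → Bool) → (Fin m → Bool) → Prop) (D : Fin m → Bool) (i : Fin m)
    (a b : Bool) : NN R (flip i D) i a b = NN R D i a b := by
  classical
  unfold NN
  congr 1
  refine filter_congr fun z _ => ?_
  refine and_congr_right fun hz => ?_
  have e1 : Function.update (cx (flip i D) z) i a = Function.update (cx D z) i a := by
    funext j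
    by_cases hj : j = i
    · subst hj
      simp
    · simp [Function.update_of_ne hj, cx, flip]
  have e2 : Function.update (cy (flip i D) z) i b = Function.update (cy D z) i b := by
    funext j
    by_cases hj : j = i
    · subst hj
      simp
    · simp [Function.update_of_ne hj, cy, flip]
  rw [e1, e2]

theorem NN_le_yy (R : (Fin m → Bool) → (Fin m → Bool) → Prop) (D : Fin m → Bool) (i : Fin m) :
    NN R D i true true ≤ yy R D i := by
  classical
  unfold NN yy
  refine card_le_card fun z hz => ?_
  obtain ⟨-, -, h2⟩ := mem_filter.1 hz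
  exact mem_filter.2 ⟨mem_univ _, h2⟩

theorem nn_eq (R : (Fin m → Bool) → (Fin m → Bool) → Prop) (D : Fin m → Bool) (i : Fin m) :
    nn R D = n1 R D i false + n1 R D i true := by
  classical
  unfold nn n1
  rw [← card_union_of_disjoint]
  · congr 1
    ext z
    simp only [mem_filter, mem_univ, true_and, mem_union]
    cases z i <;> simp
  · rw [disjoint_left]
    intro z h1 h2
    have e1 := (mem_filter.1 h1).2.1
    have e2 := (mem_filter.1 h2).2.1
    rw [e1] at e2
    exact absurd e2 (by simp)

/-- `i` is biased for `D` -/
def Bad (R : (Fin m → Bool) → (Fin m → Bool) → Prop) (D : Fin m → Bool) (i : Fin m) : Prop :=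
  ∃ b, 4 * n1 R D i b < nn R D

theorem good {R : (Fin m → Bool) → (Fin m → Bool) → Prop} {D : Fin m → Bool} {i : Fin m}
    (sA sB : Fin m → Bool) (hA : sA i = true) (hB : sB i = false)
    (hmix : ∀ x y x' y', R x y → R x' y' → R (mix sA x x') (mix sB y y'))
    (h1 : ¬ Bad R D i) (h2 : ¬ Bad R (flip i D) i) : nn R D ≤ 16 * yy R D i := by
  have h4 := four (D := D) sA sB hA hB hmix
  unfold Bad at h1 h2
  push Not at h1 h2
  have a0 := h1 false
  have a1 := h1 true
  have b0 := h2 false
  have b1 := h2 true
  have e := nn_eq R (flip i D) i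
  rw [n1_false] at a0 b0 e
  rw [NN_flip] at b0 e
  have hy := NN_le_yy R D i
  have hprod : n1 R D i true * n1 R (flip i D) i true ≤
      NN R D i true true * NN R D i false false := by
    rw [n1_true, n1_true, NN_flip]
    have hf : flip i D i = !D i := by simp [flip]
    rw [hf]
    cases hD : D i
    · simp only [Bool.not_false, Bool.not_true]
      rw [mul_comm]
      exact h4
    · simp only [Bool.not_false, Bool.not_true]
      exact h4
  set u := NN R D i false false
  set v := NN R D i true true
  set a := n1 R D i true
  set b := n1 R (flip i D) i true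
  rcases Nat.eq_zero_or_pos u with hu | hu
  · have : nn R D = 0 := by omega
    omega
  · have c1 : u ≤ 4 * b := by omega
    have c2 : nn R D * u ≤ 16 * v * u := by
      calc nn R D * u ≤ (4 * a) * (4 * b) := Nat.mul_le_mul a1 c1
        _ = 16 * (a * b) := by ring
        _ ≤ 16 * (v * u) := Nat.mul_le_mul_left _ hprod
        _ = 16 * v * u := by ring
    have c3 := Nat.le_of_mul_le_mul_right c2 hu
    omega

open Classical in
/-- few places are biased -/
theorem few_biased (R : (Fin m → Bool) → (Fin m → Bool) → Prop) (D : Fin m → Bool)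
    (h : Real.exp (-(m : ℝ) / 160) * 2 ^ m ≤ (nn R D : ℝ)) :
    ((univ.filter fun i => Bad R D i).card : ℝ) ≤ m / 20 := by
  set B := univ.filter fun i => Bad R D i with hB
  have hex : ∀ i, ∃ b, i ∈ B → 4 * n1 R D i b < nn R D := by
    intro i
    by_cases hi : i ∈ B
    · obtain ⟨b, hb⟩ := (mem_filter.1 hi).2
      exact ⟨b, fun _ => hb⟩
    · exact ⟨true, fun h => absurd h hi⟩
  choose β hβ using hex
  by_contra hcon
  push Not at hcon
  set Z := univ.filter fun z : Fin m → Bool => R (cx D z) (cy D z) with hZ
  have hZc : (Z.card : ℝ) = nn R D := rfl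
  obtain ⟨s, hs⟩ : ∃ s : Fin m → Bool → ℝ, s = fun i c => if c = β i then (-1 : ℝ) else 1 :=
    ⟨_, rfl⟩
  -- average
  have h1 : ∀ i ∈ B, (Z.card : ℝ) / 2 ≤ ∑ z ∈ Z, s i (z i) := by
    intro i hi
    have h2 : ∑ z ∈ Z, s i (z i) = (Z.card : ℝ) - 2 * n1 R D i (β i) := by
      have h3 : ∀ z ∈ Z, s i (z i) = 1 - 2 * (if z i = β i then (1 : ℝ) else 0) := by
        intro z _
        rw [hs]
        simp only
        split_ifs <;> norm_num
      rw [sum_congr rfl h3, sum_sub_distrib, ← mul_sum, sum_const, nsmul_eq_mul, mul_one,
        ← sum_filter, sum_const, nsmul_eq_mul, mul_one]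
      congr 2
      unfold n1
      rw [hZ, filter_filter]
      congr 2
      refine filter_congr fun z _ => ?_
      tauto
    have h3 : (4 * n1 R D i (β i) : ℝ) < nn R D := by exact_mod_cast hβ i hi
    rw [h2]
    rw [← hZc] at h3
    linarith
  have h2 : (B.card : ℝ) * (Z.card / 2) ≤ ∑ z ∈ Z, ∑ i ∈ B, s i (z i) := by
    rw [sum_comm]
    have := card_nsmul_le_sum B (fun i => ∑ z ∈ Z, s i (z i)) _ h1
    rwa [nsmul_eq_mul] at this
  -- exponential moment from below
  have h3 : Real.exp ((B.card : ℝ) / 4) * Z.card ≤
      ∑ z ∈ Z, Real.exp (1 / 2 * ∑ i ∈ B, s i (z i)) := by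
    have h4 : ∀ z ∈ Z, Real.exp ((B.card : ℝ) / 4) *
        (1 + (1 / 2 * (∑ i ∈ B, s i (z i)) - (B.card : ℝ) / 4)) ≤
        Real.exp (1 / 2 * ∑ i ∈ B, s i (z i)) := by
      intro z _
      have h5 := Real.add_one_le_exp (1 / 2 * (∑ i ∈ B, s i (z i)) - (B.card : ℝ) / 4)
      calc _ ≤ Real.exp ((B.card : ℝ) / 4) *
            Real.exp (1 / 2 * (∑ i ∈ B, s i (z i)) - (B.card : ℝ) / 4) :=
          mul_le_mul_of_nonneg_left (by linarith) (Real.exp_pos _).le
        _ = _ := by rw [← Real.exp_add]; congr 1; ring
    refine le_trans ?_ (sum_le_sum h4)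
    rw [← mul_sum]
    refine mul_le_mul_of_nonneg_left ?_ (Real.exp_pos _).le
    rw [sum_add_distrib, sum_sub_distrib, ← mul_sum, sum_const, sum_const, nsmul_eq_mul,
      nsmul_eq_mul]
    have : (Z.card : ℝ) * ((B.card : ℝ) / 4) = 1 / 2 * ((B.card : ℝ) * (Z.card / 2)) := by ring
    rw [this]
    linarith
  -- exponential moment from above
  have h4 : ∑ z ∈ Z, Real.exp (1 / 2 * ∑ i ∈ B, s i (z i)) ≤
      2 ^ m * Real.exp ((B.card : ℝ) / 8) := by
    calc _ ≤ ∑ z : Fin m → Bool, Real.exp (1 / 2 * ∑ i ∈ B, s i (z i)) :=
          sum_le_sum_of_subset_of_nonneg (subset_univ _) fun _ _ _ => (Real.exp_pos _).le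
      _ = ∑ z : Fin m → Bool, ∏ i, (if i ∈ B then Real.exp (1 / 2 * s i (z i)) else 1) := by
          refine sum_congr rfl fun z _ => ?_
          rw [prod_ite, prod_const_one, mul_one, mul_sum, Real.exp_sum]
          congr 1
          ext i
          simp
      _ = ∏ i : Fin m, ∑ c : Bool, (if i ∈ B then Real.exp (1 / 2 * s i c) else 1) := by
          rw [prod_univ_sum, Fintype.piFinset_univ]
      _ ≤ ∏ i : Fin m, (if i ∈ B then 2 * Real.exp (1 / 8) else 2) := by
          refine prod_le_prod (fun i _ => sum_nonneg fun c _ => ?_) fun i _ => ?_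
          · split_ifs
            · exact (Real.exp_pos _).le
            · exact zero_le_one
          · split_ifs with hi
            · rw [Fintype.sum_bool]
              have h5 : Real.exp (1 / 2 * s i true) + Real.exp (1 / 2 * s i false) =
                  2 * Real.cosh (1 / 2) := by
                rw [Real.cosh_eq, hs]
                simp only
                cases β i <;> simp <;> ring
              rw [h5]
              have h6 := Real.cosh_le_exp_half_sq (1 / 2 : ℝ)
              have h7 : ((1 / 2 : ℝ) ^ 2 / 2) = 1 / 8 := by norm_num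
              rw [h7] at h6
              linarith
            · rw [Fintype.sum_bool]
              norm_num
      _ = 2 ^ m * Real.exp ((B.card : ℝ) / 8) := by
          have h5 : ∀ i : Fin m, (if i ∈ B then 2 * Real.exp (1 / 8) else (2 : ℝ)) =
              2 * (if i ∈ B then Real.exp (1 / 8) else 1) := by
            intro i
            split_ifs <;> ring
          rw [prod_congr rfl fun i _ => h5 i, prod_mul_distrib, prod_const, card_univ,
            Fintype.card_fin, prod_ite_mem, univ_inter, prod_const, ← Real.exp_nat_mul]
          congr 2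
          ring
  -- conclusion
  have h5 : Real.exp ((B.card : ℝ) / 4) * (Real.exp (-(m : ℝ) / 160) * 2 ^ m) ≤
      2 ^ m * Real.exp ((B.card : ℝ) / 8) := by
    refine le_trans ?_ (h3.trans h4)
    rw [hZc]
    exact mul_le_mul_of_nonneg_left h (Real.exp_pos _).le
  have h6 : Real.exp ((B.card : ℝ) / 4 + -(m : ℝ) / 160) ≤ Real.exp ((B.card : ℝ) / 8) := by
    rw [Real.exp_add]
    have : (0 : ℝ) < 2 ^ m := by positivity
    refine le_of_mul_le_mul_right ?_ this
    linarith
  rw [Real.exp_le_exp] at h6
  linarith

end Pool.Agent.Helper68K9.TB
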