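import Pool.Agent.Helper68K9.TB.Cor

set_option autoImplicit false

/-!
# The corruption lemma
-/

namespace Pool.Agent.Helper68K9.TB

open Finset

variable {m : ℕ}

open Classical in
/-- the weight of the biased places -/
theorem weight_bad (R : (Fin m → Bool) → (Fin m → Bool) → Prop) :
    ∑ D : Fin m → Bool, ∑ i : Fin m, (if Bad R D i then (nn R D : ℝ) else 0) ≤
      m / 20 * ∑ D : Fin m → Bool, (nn R D : ℝ) +
        m * (Real.exp (-(m : ℝ) / 160) * 4 ^ m) := by
  have h1 : ∀ D : Fin m → Bool, ∑ i : Fin m, (if Bad R D i then (nn R D : ℝ) else 0) ≤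
      m / 20 * (nn R D : ℝ) + m * (Real.exp (-(m : ℝ) / 160) * 2 ^ m) := by
    intro D
    rw [← sum_filter, sum_const, nsmul_eq_mul]
    have hm : (0 : ℝ) ≤ m := Nat.cast_nonneg m
    have hn : (0 : ℝ) ≤ nn R D := Nat.cast_nonneg _
    have he : 0 ≤ Real.exp (-(m : ℝ) / 160) * 2 ^ m := by positivity
    by_cases h : Real.exp (-(m : ℝ) / 160) * 2 ^ m ≤ (nn R D : ℝ)
    · have h2 := few_biased R D h
      have h3 := mul_le_mul_of_nonneg_right h2 hn
      have h4 : 0 ≤ (m : ℝ) * (Real.exp (-(m : ℝ) / 160) * 2 ^ m) := mul_nonneg hm he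
      linarith
    · push Not at h
      have h2 : ((univ.filter fun i : Fin m => Bad R D i).card : ℝ) ≤ m := by
        have : (univ.filter fun i : Fin m => Bad R D i).card ≤ m :=
          (card_filter_le _ _).trans_eq (by rw [card_univ, Fintype.card_fin])
        exact_mod_cast this
      have h3 : ((univ.filter fun i : Fin m => Bad R D i).card : ℝ) * nn R D ≤
          m * (Real.exp (-(m : ℝ) / 160) * 2 ^ m) := mul_le_mul h2 h.le hn hm
      have h4 : 0 ≤ (m : ℝ) / 20 * nn R D := by positivity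
      linarith
  refine (sum_le_sum fun D _ => h1 D).trans (le_of_eq ?_)
  rw [sum_add_distrib, ← mul_sum, sum_const, card_univ, Fintype.card_fun, Fintype.card_fin,
    Fintype.card_bool, nsmul_eq_mul]
  push_cast
  have : (4 : ℝ) ^ m = 2 ^ m * 2 ^ m := by rw [← mul_pow]; norm_num
  rw [this]
  ring

/-- **Corruption lemma.** -/
theorem corrupt (R : (Fin m → Bool) → (Fin m → Bool) → Prop) (I : Finset (Fin m))
    (hI : m ≤ 2 * I.card)
    (hmix : ∀ i ∈ I, ∃ sA sB : Fin m → Bool, sA i = true ∧ sB i = false ∧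
      ∀ x y x' y', R x y → R x' y' → R (mix sA x x') (mix sB y y')) :
    m * ((∑ D : Fin m → Bool, (nn R D : ℝ)) / 64 -
        Real.exp (-(m : ℝ) / 160) * 4 ^ m) ≤
      ∑ i : Fin m, ∑ D : Fin m → Bool, (yy R D i : ℝ) := by
  classical
  have hpt : ∀ i ∈ I, ∀ D : Fin m → Bool, (nn R D : ℝ) ≤ 16 * yy R D i +
      (if Bad R D i then (nn R D : ℝ) else 0) +
      4 * (if Bad R (flip i D) i then (nn R (flip i D) : ℝ) else 0) := by
    intro i hi D
    obtain ⟨sA, sB, hA, hB, hm⟩ := hmix i hi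
    have hy : (0 : ℝ) ≤ yy R D i := Nat.cast_nonneg _
    have hn : (0 : ℝ) ≤ nn R (flip i D) := Nat.cast_nonneg _
    by_cases h1 : Bad R D i
    · rw [if_pos h1]
      have : (0 : ℝ) ≤ if Bad R (flip i D) i then (nn R (flip i D) : ℝ) else 0 := by
        split_ifs
        · exact hn
        · exact le_rfl
      linarith
    · rw [if_neg h1]
      by_cases h2 : Bad R (flip i D) i
      · rw [if_pos h2]
        have h3 : nn R D ≤ 4 * nn R (flip i D) := by
          unfold Bad at h1
          push Not at h1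
          have a0 := h1 false
          have e := nn_eq R (flip i D) i
          rw [n1_false] at a0 e
          rw [NN_flip] at e
          omega
        have h4 : (nn R D : ℝ) ≤ 4 * nn R (flip i D) := by exact_mod_cast h3
        linarith
      · rw [if_neg h2]
        have h3 := good sA sB hA hB hm h1 h2
        have h4 : (nn R D : ℝ) ≤ 16 * yy R D i := by exact_mod_cast h3
        linarith
  set S : ℝ := ∑ D : Fin m → Bool, (nn R D : ℝ) with hS
  have hS0 : 0 ≤ S := sum_nonneg fun _ _ => Nat.cast_nonneg _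
  have hi : ∀ i ∈ I, S ≤ 16 * ∑ D : Fin m → Bool, (yy R D i : ℝ) +
      5 * ∑ D : Fin m → Bool, (if Bad R D i then (nn R D : ℝ) else 0) := by
    intro i hi
    have h1 := sum_le_sum fun D (_ : D ∈ (univ : Finset (Fin m → Bool))) => hpt i hi D
    rw [sum_add_distrib, sum_add_distrib, ← mul_sum, ← mul_sum] at h1
    have h2 : ∑ D : Fin m → Bool, (if Bad R (flip i D) i then (nn R (flip i D) : ℝ) else 0) =
        ∑ D : Fin m → Bool, (if Bad R D i then (nn R D : ℝ) else 0) :=
      Fintype.sum_bijective (flip i) (Function.Involutive.bijective (flip_flip i)) _ _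
        fun D => rfl
    rw [h2] at h1
    linarith
  have hsum := sum_le_sum hi
  rw [sum_const, nsmul_eq_mul, sum_add_distrib, ← mul_sum, ← mul_sum] at hsum
  have h1 : ∑ i ∈ I, ∑ D : Fin m → Bool, (yy R D i : ℝ) ≤
      ∑ i : Fin m, ∑ D : Fin m → Bool, (yy R D i : ℝ) :=
    sum_le_sum_of_subset_of_nonneg (subset_univ _) fun i _ _ =>
      sum_nonneg fun _ _ => Nat.cast_nonneg _
  have h2 : ∑ i ∈ I, ∑ D : Fin m → Bool, (if Bad R D i then (nn R D : ℝ) else 0) ≤
      ∑ D : Fin m → Bool, ∑ i : Fin m, (if Bad R D i then (nn R D : ℝ) else 0) := by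
    rw [sum_comm]
    refine sum_le_sum fun D _ => sum_le_sum_of_subset_of_nonneg (subset_univ _) fun i _ _ => ?_
    split_ifs
    · exact Nat.cast_nonneg _
    · exact le_rfl
  have h3 := weight_bad R
  rw [← hS] at h3
  have h4 : (m : ℝ) ≤ 2 * I.card := by exact_mod_cast hI
  have h5 : (m : ℝ) / 2 * S ≤ I.card * S := mul_le_mul_of_nonneg_right (by linarith) hS0
  have h6 : 0 ≤ (m : ℝ) * (Real.exp (-(m : ℝ) / 160) * 4 ^ m) := by positivity
  have h7 : (m : ℝ) * (S / 64 - Real.exp (-(m : ℝ) / 160) * 4 ^ m) =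
      m * S / 64 - m * (Real.exp (-(m : ℝ) / 160) * 4 ^ m) := by ring
  rw [h7]
  have h8 : (m : ℝ) / 20 * S = m * S / 20 := by ring
  have h9 : (m : ℝ) / 2 * S = m * S / 2 := by ring
  rw [h8] at h3
  rw [h9] at h5
  linarith

end Pool.Agent.Helper68K9.TB
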