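import Pool.Agent.Helper68K9.TB.Main
import Pool.Agent.Helper68K9.TS.Final

set_option autoImplicit false

/-!
# 3SUM: time times space, two-sided error
-/

namespace Pool.Agent.Helper68K9.TB

open Finset Pool.Agent.Helper62K9.TW Pool.Agent.Helper68K9.TS

/-- Every input has at most one computation with `T` steps that accepts it. -/
def Unambiguous {X Q : Type} [Fintype X] (P : TwoWay X Q) (T : ℕ) : Prop :=
  ∀ x q h q' h', P.Run T x q h → P.Run T x q' h' → ∀ t ≤ T, q t = q' t ∧ h t = h' t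

/-- The state, the position of the head, the bit there and the number of the step determine the
next state and the next position. -/
def Deterministic {X Q : Type} [Fintype X] (P : TwoWay X Q) : Prop :=
  ∀ t q j b, ∃ q' j', ∀ q'' j'', P.step t q j b q'' j'' ↔ q'' = q' ∧ j'' = j'

/-- the lower bound -/
theorem lower2 (K : ℕ) : ∃ δ : ℝ, 0 < δ ∧ ∃ n₀ : ℕ,
    ∀ (n W T s : ℕ) (R : Type) [Fintype R] (p : R → ℝ) (Q : R → Type) [∀ r, Fintype (Q r)]
      (P : ∀ r, TwoWay (Cells W) (Q r)),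
      n₀ ≤ n → 4 * n ≤ W → W ≤ K * n → (∀ r, 0 ≤ p r) → ∑ r, p r = 1 →
      (∀ r, Fintype.card (Q r) ≤ s) → (∀ r, Unambiguous (P r) T) →
      (∀ x : Cells W → Bool, size x ≤ n → HasSol x →
        ∑ r, Set.indicator {r | (P r).Accepts T x} p r ≤ 1 / 200) →
      (∀ x : Cells W → Bool, size x ≤ n → ¬ HasSol x →
        1 - 1 / 200 ≤ ∑ r, Set.indicator {r | (P r).Accepts T x} p r) →
      δ * (n : ℝ) ^ 2 ≤ T * Real.logb 2 (T * s + 1) := by
  obtain ⟨M, hM⟩ : ∃ M : ℕ, M = 64 * (8 * K + 1) := ⟨_, rfl⟩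
  have hMpos : (0 : ℝ) < M := by
    rw [hM]
    positivity
  refine ⟨1 / (368640 * M), by positivity, 1000000, ?_⟩
  intro n W T s R _ p Q _ P hn hW hWK hp hp1 hQ huniq hyes hno
  obtain ⟨m, hm⟩ : ∃ m, m = (n - 1) / 2 := ⟨_, rfl⟩
  have hmn : 2 * m + 1 ≤ n := by omega
  have hnm : n ≤ 3 * m := by omega
  have hnm2 : n ≤ 2 * m + 2 := by omega
  have hmL : 400000 ≤ m := by omega
  have hm0 : 0 < m := by omega
  have hm7 : 7 * m ≤ W := by omega
  have hmpos : (0 : ℝ) < m := by exact_mod_cast hm0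
  have hmL' : (400000 : ℝ) ≤ m := by exact_mod_cast hmL
  obtain ⟨w, hw⟩ : ∃ w, w = m / 32 := ⟨_, rfl⟩
  have hw1 : 32 * w ≤ m := by omega
  have hw2 : m ≤ 64 * w := by omega
  have hw0 : 0 < w := by omega
  have hwpos : (0 : ℝ) < w := by exact_mod_cast hw0
  have hw1' : 32 * (w : ℝ) ≤ m := by exact_mod_cast hw1
  have hw2' : (m : ℝ) ≤ 64 * w := by exact_mod_cast hw2
  have hX : Fintype.card (Cells W) ≤ (M + 1) * w := by
    rw [card_cells]
    have h3 : W ≤ K * (2 * m + 2) := hWK.trans (Nat.mul_le_mul_left _ hnm2)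
    have h1 : 2 * W + 1 ≤ (8 * K + 1) * m := by
      calc 2 * W + 1 ≤ 2 * (K * (2 * m + 2)) + 1 := by omega
        _ = K * (4 * m + 4) + 1 := by ring
        _ ≤ K * (8 * m) + m := Nat.add_le_add (Nat.mul_le_mul_left _ (by omega)) (by omega)
        _ = (8 * K + 1) * m := by ring
    calc 2 * W + 1 ≤ (8 * K + 1) * m := h1
      _ ≤ (8 * K + 1) * (64 * w) := Nat.mul_le_mul_left _ hw2
      _ = M * w := by rw [hM]; ring
      _ ≤ (M + 1) * w := Nat.mul_le_mul_right _ (Nat.le_succ M)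
  obtain ⟨L, hL⟩ : ∃ L, L = 2 * T / w := ⟨_, rfl⟩
  have hL1 : 2 * T < (L + 1) * w := by
    rw [hL, Nat.mul_comm (2 * T / w + 1) w]
    exact Nat.lt_mul_div_succ (2 * T) hw0
  have hcore := core hm0 hm7 (ε := 1 / 200) p Q P T M w s L hw0 hX hL1 hp hp1 hQ huniq
    (fun x hx => hyes x (hx.trans hmn)) (fun x hx => hno x (hx.trans hmn))
  set A : ℝ := (T : ℝ) * s + 1 with hA
  have hA1 : 1 ≤ A := by
    have : (0 : ℝ) ≤ (T : ℝ) * s := by positivity
    linarith
  have hA0 : 0 < A := by linarith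
  have hL0 : 0 ≤ Real.logb 2 A := Real.logb_nonneg (by norm_num) hA1
  have h1 : (1 : ℝ) / 1250 ≤ (1 - 1 / 200) / 128 - 1 / 200 - w / (16 * m) := by
    have h2 : (w : ℝ) / (16 * m) ≤ 1 / 512 := by
      rw [div_le_div_iff₀ (by positivity) (by norm_num)]
      linarith
    have h3 : (1 : ℝ) / 1250 ≤ (1 - 1 / 200) / 128 - 1 / 200 - 1 / 512 := by norm_num
    linarith
  have h2 : (M : ℝ) * (T * s) + 1 ≤ A ^ M := by
    have h3 := one_add_mul_le_pow (a := (T : ℝ) * s) (by
      have : (0 : ℝ) ≤ (T : ℝ) * s := by positivity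
      linarith) M
    rw [hA, add_comm ((T : ℝ) * s) 1]
    linarith
  have h3 : (1 : ℝ) / 1250 ≤ (A ^ M) ^ L * Real.exp (-(m : ℝ) / 160) := by
    refine h1.trans (hcore.trans ?_)
    exact mul_le_mul_of_nonneg_right (pow_le_pow_left₀ (by positivity) h2 _) (Real.exp_pos _).le
  have h4 := Real.log_le_log (by norm_num) h3
  rw [Real.log_mul (by positivity) (Real.exp_pos _).ne', Real.log_exp, ← pow_mul, Real.log_pow,
    one_div, Real.log_inv] at h4
  have h5 : Real.log 1250 ≤ 1249 := by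
    have := Real.log_le_sub_one_of_pos (show (0 : ℝ) < 1250 by norm_num)
    linarith
  have h6 : Real.log A ≤ Real.logb 2 A := by
    rw [← Real.log_div_log]
    have h7 : 0 < Real.log 2 := Real.log_pos (by norm_num)
    have h8 : Real.log 2 ≤ 1 := by
      have := Real.log_two_lt_d9
      linarith
    rw [le_div_iff₀ h7]
    have h9 : 0 ≤ Real.log A := Real.log_nonneg hA1
    nlinarith
  have h7 : (m : ℝ) / 320 ≤ (M * L : ℕ) * Real.logb 2 A := by
    have h8 : ((M * L : ℕ) : ℝ) * Real.log A ≤ (M * L : ℕ) * Real.logb 2 A :=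
      mul_le_mul_of_nonneg_left h6 (Nat.cast_nonneg _)
    have h9 : (1249 : ℝ) ≤ m / 320 := by linarith
    have h10 : -(m : ℝ) / 160 = -(m / 320) - m / 320 := by ring
    rw [h10] at h4
    linarith
  have h8 : (L : ℝ) ≤ 2 * T / w := by
    rw [hL]
    have := Nat.cast_div_le (α := ℝ) (m := 2 * T) (n := w)
    push_cast at this
    exact this
  have h9 : (m : ℝ) / 320 * w ≤ M * (2 * (T * Real.logb 2 A)) := by
    have h10 : ((M * L : ℕ) : ℝ) * Real.logb 2 A ≤ M * (2 * T / w) * Real.logb 2 A := by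
      push_cast
      exact mul_le_mul_of_nonneg_right (mul_le_mul_of_nonneg_left h8 hMpos.le) hL0
    have h11 := mul_le_mul_of_nonneg_right (h7.trans h10) hwpos.le
    refine h11.trans (le_of_eq ?_)
    field_simp
  have h10 : (n : ℝ) ≤ 3 * m := by exact_mod_cast hnm
  have h11 : (n : ℝ) ^ 2 ≤ 576 * (m * w) := by
    have h12 : (0 : ℝ) ≤ n := Nat.cast_nonneg n
    have h13 : (n : ℝ) ^ 2 ≤ (3 * m) ^ 2 := pow_le_pow_left₀ h12 h10 2
    nlinarith
  rw [div_mul_eq_mul_div, one_mul, div_le_iff₀ (by positivity)]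
  have h12 : (m : ℝ) * w ≤ 640 * M * (T * Real.logb 2 A) := by linarith
  have h13 : 576 * ((m : ℝ) * w) ≤ 576 * (640 * M * (T * Real.logb 2 A)) :=
    mul_le_mul_of_nonneg_left h12 (by norm_num)
  calc (n : ℝ) ^ 2 ≤ 576 * (m * w) := h11
    _ ≤ 576 * (640 * M * (T * Real.logb 2 A)) := h13
    _ = T * Real.logb 2 A * (368640 * M) := by ring

/-! ## Deterministic programs -/

/-- the program with the opposite answers -/
def compl {X Q : Type} [Fintype X] (P : TwoWay X Q) : TwoWay X Q where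
  order := P.order
  start := P.start
  step := P.step
  local_step := P.local_step
  final := fun q => ¬ P.final q

/-- the computation of a deterministic program -/
theorem exists_run {X Q : Type} [Fintype X] (P : TwoWay X Q) (hP : Deterministic P)
    (x : X → Bool) : ∃ (q : ℕ → Q) (h : ℕ → ℕ), q 0 = P.start ∧ h 0 = 0 ∧
      ∀ t, P.step t (q t) (h t) (P.bit x (h t)) (q (t + 1)) (h (t + 1)) := by
  choose f g hfg using hP
  obtain ⟨c, hc⟩ : ∃ c : ℕ → Q × ℕ, c = fun t => Nat.rec (P.start, 0)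
    (fun t c => (f t c.1 c.2 (P.bit x c.2), g t c.1 c.2 (P.bit x c.2))) t := ⟨_, rfl⟩
  refine ⟨fun t => (c t).1, fun t => (c t).2, by rw [hc]; rfl, by rw [hc]; rfl, fun t => ?_⟩
  rw [hfg]
  constructor
  · rw [hc]
  · rw [hc]

theorem unique_run {X Q : Type} [Fintype X] (P : TwoWay X Q) (hP : Deterministic P)
    (x : X → Bool) (T : ℕ) (q q' : ℕ → Q) (h h' : ℕ → ℕ) (h0 : q 0 = q' 0) (h1 : h 0 = h' 0)
    (hs : ∀ t < T, P.step t (q t) (h t) (P.bit x (h t)) (q (t + 1)) (h (t + 1)))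
    (hs' : ∀ t < T, P.step t (q' t) (h' t) (P.bit x (h' t)) (q' (t + 1)) (h' (t + 1))) :
    ∀ t ≤ T, q t = q' t ∧ h t = h' t := by
  intro t
  induction t with
  | zero => exact fun _ => ⟨h0, h1⟩
  | succ t ih =>
    intro ht
    obtain ⟨e1, e2⟩ := ih (by omega)
    obtain ⟨a, b, hab⟩ := hP t (q t) (h t) (P.bit x (h t))
    have f1 := (hab _ _).1 (hs t (by omega))
    have f2 := hs' t (by omega)
    rw [← e1, ← e2] at f2
    have f3 := (hab _ _).1 f2
    exact ⟨f1.1.trans f3.1.symm, f1.2.trans f3.2.symm⟩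

theorem compl_accepts {X Q : Type} [Fintype X] (P : TwoWay X Q) (hP : Deterministic P) (T : ℕ)
    (x : X → Bool) : (compl P).Accepts T x ↔ ¬ P.Accepts T x := by
  constructor
  · rintro ⟨q, h, a1, a2, a3, a4⟩ ⟨q', h', b1, b2, b3, b4⟩
    have := unique_run P hP x T q q' h h' (a1.trans b1.symm) (a2.trans b2.symm) a4 b4 T le_rfl
    apply a3
    rw [this.1]
    exact b3
  · intro hn
    obtain ⟨q, h, a1, a2, a3⟩ := exists_run P hP x
    refine ⟨q, h, a1, a2, ?_, fun t _ => a3 t⟩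
    intro hf
    exact hn ⟨q, h, a1, a2, hf, fun t _ => a3 t⟩

theorem det_unamb {X Q : Type} [Fintype X] (P : TwoWay X Q) (hP : Deterministic P) (T : ℕ) :
    Unambiguous P T := by
  intro x q h q' h' hr hr'
  exact unique_run P hP x T q q' h h' (hr.1.trans hr'.1.symm) (hr.2.1.trans hr'.2.1.symm)
    hr.2.2.2 hr'.2.2.2

/-- deterministic programs which decide whether there is a solution -/
theorem lower3 (K : ℕ) : ∃ δ : ℝ, 0 < δ ∧ ∃ n₀ : ℕ,
    ∀ (n W T s : ℕ) (R : Type) [Fintype R] (p : R → ℝ) (Q : R → Type) [∀ r, Fintype (Q r)]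
      (P : ∀ r, TwoWay (Cells W) (Q r)),
      n₀ ≤ n → 4 * n ≤ W → W ≤ K * n → (∀ r, 0 ≤ p r) → ∑ r, p r = 1 →
      (∀ r, Fintype.card (Q r) ≤ s) → (∀ r, Deterministic (P r)) →
      (∀ x : Cells W → Bool, size x ≤ n →
        ∑ r, Set.indicator {r | ¬ ((P r).Accepts T x ↔ HasSol x)} p r ≤ 1 / 200) →
      δ * (n : ℝ) ^ 2 ≤ T * Real.logb 2 (T * s + 1) := by
  classical
  obtain ⟨δ, hδ, n₀, h⟩ := lower2 K
  refine ⟨δ, hδ, n₀, ?_⟩
  intro n W T s R _ p Q _ P hn hW hWK hp hp1 hQ hdet herr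
  refine h n W T s R p Q (fun r => compl (P r)) hn hW hWK hp hp1 hQ ?_ ?_ ?_
  · intro r
    exact det_unamb (compl (P r)) (hdet r) T
  · intro x hx hs
    refine le_trans (le_of_eq ?_) (herr x hx)
    refine sum_congr rfl fun r _ => ?_
    congr 1
    ext r
    simp only [Set.mem_ofPred_eq]
    rw [compl_accepts (P r) (hdet r)]
    tauto
  · intro x hx hs
    have h1 := herr x hx
    have h2 : ∑ r, Set.indicator {r | (compl (P r)).Accepts T x} p r +
        ∑ r, Set.indicator {r | ¬ ((P r).Accepts T x ↔ HasSol x)} p r = 1 := by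
      rw [← hp1, ← sum_add_distrib]
      refine sum_congr rfl fun r _ => ?_
      have h3 := compl_accepts (P r) (hdet r) T x
      simp only [Set.indicator_apply, Set.mem_ofPred_eq, h3]
      by_cases h4 : (P r).Accepts T x
      · simp [h4, hs]
      · simp [h4, hs]
    linarith

end Pool.Agent.Helper68K9.TB
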