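import Pool.Agent.Helper68K9.TB.One
import Pool.Agent.Helper68K9.TS.Main

set_option autoImplicit false

/-!
# 3SUM: averages over the programs and over `t`
-/

namespace Pool.Agent.Helper68K9.TB

open Finset Pool.Agent.Helper62K9.TW Pool.Agent.Helper68K9.TS

open Classical in
/-- average of a number of accepted inputs -/
theorem avg_eq {J X R : Type} [Fintype J] [Fintype R] (p : R → ℝ) (A : R → X → Prop) (f : J → X) :
    ∑ r, p r * ((univ.filter fun j : J => A r (f j)).card : ℝ) =
      ∑ j : J, ∑ r, Set.indicator {r | A r (f j)} p r := by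
  rw [sum_comm]
  refine sum_congr rfl fun r _ => ?_
  simp only [Set.indicator_apply, Set.mem_ofPred_eq]
  rw [← sum_filter, sum_const, nsmul_eq_mul, mul_comm]

open Classical in
/-- the finite form of the lower bound -/
theorem core {W m : ℕ} (hm : 0 < m) (hW : 7 * m ≤ W) {ε : ℝ}
    {R : Type} [Fintype R] (p : R → ℝ) (Q : R → Type) [∀ r, Fintype (Q r)]
    (P : ∀ r, TwoWay (Cells W) (Q r)) (T M w s L : ℕ) (hw : 0 < w)
    (hX : Fintype.card (Cells W) ≤ (M + 1) * w) (hL : 2 * T < (L + 1) * w)
    (hp : ∀ r, 0 ≤ p r) (hp1 : ∑ r, p r = 1) (hQ : ∀ r, Fintype.card (Q r) ≤ s)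
    (huniq : ∀ r x q h q' h', (P r).Run T x q h → (P r).Run T x q' h' →
      ∀ t ≤ T, q t = q' t ∧ h t = h' t)
    (hyes : ∀ x : Cells W → Bool, size x ≤ 2 * m + 1 → HasSol x →
      ∑ r, Set.indicator {r | (P r).Accepts T x} p r ≤ ε)
    (hno : ∀ x : Cells W → Bool, size x ≤ 2 * m + 1 → ¬ HasSol x →
      1 - ε ≤ ∑ r, Set.indicator {r | (P r).Accepts T x} p r) :
    (1 - ε) / 128 - ε - w / (16 * m) ≤
      (M * (T * s) + 1) ^ L * Real.exp (-(m : ℝ) / 160) := by
  obtain ⟨A, hA⟩ : ∃ A : R → Fin m → ℝ, A = fun (r : R) (t : Fin m) => ∑ D : Fin m → Bool,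
      ((univ.filter fun z : Fin m → Bool =>
        (P r).Accepts T (inp2 W m t (cx D z) (cy D z))).card : ℝ) := ⟨_, rfl⟩
  obtain ⟨Y, hY⟩ : ∃ Y : R → Fin m → ℝ, Y = fun (r : R) (t : Fin m) => ∑ i : Fin m, ∑ D : Fin m → Bool,
      ((univ.filter fun z : Fin m → Bool =>
        (P r).Accepts T (inp2 W m t (Function.update (cx D z) i true)
          (Function.update (cy D z) i true))).card : ℝ) := ⟨_, rfl⟩
  have hm0 : (0 : ℝ) < m := by exact_mod_cast hm
  have h4m : (0 : ℝ) < 4 ^ m := by positivity
  have h22 : (2 : ℝ) ^ m * 2 ^ m = 4 ^ m := by rw [← mul_pow]; norm_num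
  -- averages
  have hAavg : ∀ t : Fin m, (1 - ε) * 4 ^ m ≤ ∑ r, p r * A r t := by
    intro t
    have e1 : ∑ r, p r * A r t = ∑ D : Fin m → Bool, ∑ z : Fin m → Bool,
        ∑ r, Set.indicator {r | (P r).Accepts T (inp2 W m t (cx D z) (cy D z))} p r := by
      rw [hA]
      simp only [mul_sum]
      rw [sum_comm]
      refine sum_congr rfl fun D _ => ?_
      exact avg_eq p (fun r x => (P r).Accepts T x) fun z => inp2 W m t (cx D z) (cy D z)
    rw [e1]
    have e2 : ∀ D ∈ (univ : Finset (Fin m → Bool)), (1 - ε) * 2 ^ m ≤ ∑ z : Fin m → Bool,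
        ∑ r, Set.indicator {r | (P r).Accepts T (inp2 W m t (cx D z) (cy D z))} p r := by
      intro D _
      have e3 := card_nsmul_le_sum (univ : Finset (Fin m → Bool)) _ _ fun z _ =>
        hno (inp2 W m t (cx D z) (cy D z)) (size2_le hW t.2 _ _)
          (inp2_no t.2 _ _ fun i h1 h2 => by
            simp only [cx, cy] at h1 h2
            cases hD : D i <;> simp [hD] at h1 h2)
      rw [card_univ, Fintype.card_fun, Fintype.card_fin, Fintype.card_bool, nsmul_eq_mul] at e3
      push_cast at e3
      linarith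
    have e3 := card_nsmul_le_sum (univ : Finset (Fin m → Bool)) _ _ e2
    rw [card_univ, Fintype.card_fun, Fintype.card_fin, Fintype.card_bool, nsmul_eq_mul] at e3
    push_cast at e3
    refine le_trans (le_of_eq ?_) e3
    rw [← h22]
    ring
  have hYavg : ∀ t : Fin m, ∑ r, p r * Y r t ≤ ε * (m * 4 ^ m) := by
    intro t
    have e1 : ∑ r, p r * Y r t = ∑ i : Fin m, ∑ D : Fin m → Bool, ∑ z : Fin m → Bool,
        ∑ r, Set.indicator {r | (P r).Accepts T (inp2 W m t (Function.update (cx D z) i true)
          (Function.update (cy D z) i true))} p r := by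
      rw [hY]
      simp only [mul_sum]
      rw [sum_comm]
      refine sum_congr rfl fun i _ => ?_
      rw [sum_comm]
      refine sum_congr rfl fun D _ => ?_
      exact avg_eq p (fun r x => (P r).Accepts T x) fun z =>
        inp2 W m t (Function.update (cx D z) i true) (Function.update (cy D z) i true)
    rw [e1]
    have e2 : ∀ i ∈ (univ : Finset (Fin m)), ∑ D : Fin m → Bool, ∑ z : Fin m → Bool,
        ∑ r, Set.indicator {r | (P r).Accepts T (inp2 W m t (Function.update (cx D z) i true)
          (Function.update (cy D z) i true))} p r ≤ ε * 4 ^ m := by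
      intro i _
      have e3 : ∀ D ∈ (univ : Finset (Fin m → Bool)), ∑ z : Fin m → Bool,
          ∑ r, Set.indicator {r | (P r).Accepts T (inp2 W m t (Function.update (cx D z) i true)
            (Function.update (cy D z) i true))} p r ≤ 2 ^ m * ε := by
        intro D _
        have e4 := sum_le_card_nsmul (univ : Finset (Fin m → Bool)) _ _ fun z _ =>
          hyes (inp2 W m t (Function.update (cx D z) i true) (Function.update (cy D z) i true))
            (size2_le hW t.2 _ _) (inp2_yes hW t.2 _ _ i (by simp) (by simp))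
        rw [card_univ, Fintype.card_fun, Fintype.card_fin, Fintype.card_bool,
          nsmul_eq_mul] at e4
        push_cast at e4
        exact e4
      have e4 := sum_le_card_nsmul (univ : Finset (Fin m → Bool)) _ _ e3
      rw [card_univ, Fintype.card_fun, Fintype.card_fin, Fintype.card_bool, nsmul_eq_mul] at e4
      push_cast at e4
      refine e4.trans (le_of_eq ?_)
      rw [← h22]
      ring
    have e3 := sum_le_card_nsmul (univ : Finset (Fin m)) _ _ e2
    rw [card_univ, Fintype.card_fin, nsmul_eq_mul] at e3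
    refine e3.trans (le_of_eq ?_)
    ring
  set Kr : ℝ := (M * (T * s) + 1) ^ L with hKr
  have hK0 : 0 ≤ Kr := by positivity
  set θ : ℝ := Real.exp (-(m : ℝ) / 160) * 4 ^ m with hθ
  have hθ0 : 0 ≤ θ := by positivity
  -- one program
  have hone : ∀ r, (m : ℝ) * ((∑ t : Fin m, A r t) / 128 - m * (Kr * θ) - 8 * w * 4 ^ m / 128) ≤
      ∑ t : Fin m, Y r t := by
    intro r
    set pos : Cells W → ℕ := fun e => (((P r).order e : Fin _) : ℕ) with hposdef
    have hpos : Function.Injective pos := fun e e' h => (P r).order.injective (Fin.ext h)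
    set bad := univ.filter fun t : Fin m =>
      m / 2 < (univ.filter fun i : Fin m => Near hW t.2 pos w i).card with hbad
    have hbadc : bad.card ≤ 8 * w := few_bad hm hW pos hpos w
    have hpt : ∀ t ∈ (univ : Finset (Fin m)), (m : ℝ) * (A r t / 128 - Kr * θ -
        (if t ∈ bad then 4 ^ m / 128 else 0)) ≤ Y r t := by
      intro t _
      have hYn : 0 ≤ Y r t := by
        rw [hY]
        exact sum_nonneg fun _ _ => sum_nonneg fun _ _ => Nat.cast_nonneg _
      by_cases htb : t ∈ bad
      · rw [if_pos htb]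
        have hAle : A r t ≤ 4 ^ m := by
          rw [hA]
          simp only
          have e4 := sum_le_card_nsmul (univ : Finset (Fin m → Bool)) (fun D =>
            ((univ.filter fun z : Fin m → Bool =>
              (P r).Accepts T (inp2 W m t (cx D z) (cy D z))).card : ℝ)) (2 ^ m) fun D _ => by
              have e5 : (univ.filter fun z : Fin m → Bool =>
                (P r).Accepts T (inp2 W m t (cx D z) (cy D z))).card ≤ 2 ^ m := by
                refine (card_filter_le _ _).trans_eq ?_
                rw [card_univ, Fintype.card_fun, Fintype.card_fin, Fintype.card_bool]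
              exact_mod_cast e5
          rw [card_univ, Fintype.card_fun, Fintype.card_fin, Fintype.card_bool,
            nsmul_eq_mul] at e4
          push_cast at e4
          rwa [h22] at e4
        have : A r t / 128 - Kr * θ - 4 ^ m / 128 ≤ 0 := by
          have := mul_nonneg hK0 hθ0
          linarith
        exact (mul_nonpos_of_nonneg_of_nonpos hm0.le this).trans hYn
      · rw [if_neg htb, sub_zero]
        have hnear : (univ.filter fun i : Fin m => Near hW t.2 pos w i).card ≤ m / 2 := by
          by_contra hcon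
          exact htb (mem_filter.2 ⟨mem_univ _, not_le.1 hcon⟩)
        have h1 := one2 hW t.2 (P r) T M w L hw hX hL (huniq r) hnear
        have h2 : ((M : ℝ) * (T * Fintype.card (Q r)) + 1) ^ L ≤ Kr := by
          rw [hKr]
          refine pow_le_pow_left₀ (by positivity) ?_ _
          have h3 : (Fintype.card (Q r) : ℝ) ≤ s := by exact_mod_cast hQ r
          have h4 : (0 : ℝ) ≤ M * T := by positivity
          nlinarith [mul_le_mul_of_nonneg_left h3 h4]
        rw [hA, hY]
        simp only
        refine le_trans (mul_le_mul_of_nonneg_left ?_ hm0.le) h1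
        have h3 := mul_le_mul_of_nonneg_right h2 hθ0
        rw [hθ] at h3 ⊢
        linarith
    have hs := sum_le_sum hpt
    rw [← mul_sum, sum_sub_distrib, sum_sub_distrib, ← sum_div, sum_const, card_univ,
      Fintype.card_fin, nsmul_eq_mul, ← sum_filter, sum_const, nsmul_eq_mul] at hs
    refine le_trans (mul_le_mul_of_nonneg_left ?_ hm0.le) hs
    have e1 : (univ.filter fun t => t ∈ bad) = bad := by
      ext t
      simp
    rw [e1]
    have e2 : (bad.card : ℝ) ≤ 8 * w := by exact_mod_cast hbadc
    have e3 := mul_le_mul_of_nonneg_right e2 (show (0 : ℝ) ≤ 4 ^ m / 128 by positivity)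
    have e4 : (8 : ℝ) * w * (4 ^ m / 128) = 8 * w * 4 ^ m / 128 := by ring
    rw [e4] at e3
    linarith
  -- all programs
  have h1 := sum_le_sum fun r (_ : r ∈ (univ : Finset R)) =>
    mul_le_mul_of_nonneg_left (hone r) (hp r)
  have h2 : ∑ r, p r * ∑ t : Fin m, Y r t ≤ m * (ε * (m * 4 ^ m)) := by
    simp only [mul_sum]
    rw [sum_comm]
    have := sum_le_card_nsmul (univ : Finset (Fin m)) _ _ fun t _ => hYavg t
    rwa [card_univ, Fintype.card_fin, nsmul_eq_mul] at this
  have h3 : (m : ℝ) * ((m * ((1 - ε) * 4 ^ m)) / 128 - m * (Kr * θ) - 8 * w * 4 ^ m / 128) ≤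
      ∑ r, p r * ((m : ℝ) * ((∑ t : Fin m, A r t) / 128 - m * (Kr * θ) -
        8 * w * 4 ^ m / 128)) := by
    have e1 : ∑ r, p r * ((m : ℝ) * ((∑ t : Fin m, A r t) / 128 - m * (Kr * θ) -
        8 * w * 4 ^ m / 128)) = m * ((∑ t : Fin m, ∑ r, p r * A r t) / 128 - m * (Kr * θ) -
        8 * w * 4 ^ m / 128) := by
      have e2 : ∀ r, p r * ((m : ℝ) * ((∑ t : Fin m, A r t) / 128 - m * (Kr * θ) -
          8 * w * 4 ^ m / 128)) = m * ((∑ t : Fin m, p r * A r t) / 128) -
          p r * (m * (m * (Kr * θ) + 8 * w * 4 ^ m / 128)) := by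
        intro r
        rw [← mul_sum]
        ring
      rw [sum_congr rfl fun r _ => e2 r, sum_sub_distrib, ← sum_mul, hp1, ← mul_sum, ← sum_div,
        sum_comm]
      ring
    rw [e1]
    have e3 := card_nsmul_le_sum (univ : Finset (Fin m)) _ _ fun t _ => hAavg t
    rw [card_univ, Fintype.card_fin, nsmul_eq_mul] at e3
    refine mul_le_mul_of_nonneg_left ?_ hm0.le
    linarith
  have h5 := h3.trans (h1.trans h2)
  have h6 := le_of_mul_le_mul_left h5 hm0
  -- divide by `m 4 ^ m`
  have h7 : ((1 - ε) / 128 - ε - w / (16 * m)) * (m * 4 ^ m) ≤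
      (Kr * Real.exp (-(m : ℝ) / 160)) * (m * 4 ^ m) := by
    have e1 : ((1 - ε) / 128 - ε - w / (16 * m)) * (m * 4 ^ m) =
        m * ((1 - ε) * 4 ^ m) / 128 - ε * (m * 4 ^ m) - 8 * w * 4 ^ m / 128 := by
      field_simp
      ring
    have e2 : (Kr * Real.exp (-(m : ℝ) / 160)) * (m * 4 ^ m) = m * (Kr * θ) := by
      rw [hθ]
      ring
    rw [e1, e2]
    linarith
  exact le_of_mul_le_mul_right h7 (by positivity)

end Pool.Agent.Helper68K9.TB
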