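import Pool.Agent.Helper68K9.TB.Fam
import Pool.Agent.Helper68K9.TB.Cor2

set_option autoImplicit false

/-!
# 3SUM: one program, one value of `t`
-/

namespace Pool.Agent.Helper68K9.TB

open Finset Pool.Agent.Helper62K9.TW Pool.Agent.Helper68K9.TS

/-- segments are short -/
theorem seg_near {M w o : ℕ} (hw : 0 < w) (ho : o < w) {j k : ℕ} (hj : j < (M + 1) * w)
    (h : seg M (fun k => k * w + o) j = k) : (k - 1) * w ≤ j ∧ j < (k + 1) * w := by
  have hb : ∀ i k, i < k → k < M → (fun k => k * w + o) i < (fun k => k * w + o) k := by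
    intro i k hik _
    have : i * w < k * w := Nat.mul_lt_mul_of_pos_right hik hw
    simp only
    omega
  obtain ⟨h1, h2⟩ := seg_bounds hb h
  have hkM : k ≤ M := h ▸ seg_le M _ _
  constructor
  · rcases Nat.eq_zero_or_pos k with h0 | h0
    · rw [h0]
      simp
    · have h4 := h1 h0
      omega
  · rcases hkM.lt_or_eq with h0 | h0
    · have h4 := h2 h0
      rw [Nat.succ_mul]
      omega
    · rw [h0]
      exact hj

open Classical in
/-- one class -/
theorem class_ineq {W m t : ℕ} (hW : 7 * m ≤ W) (ht : t < m) {Q : Type} [Fintype Q]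
    (P : TwoWay (Cells W) Q) (T M w o : ℕ) (hw : 0 < w) (ho : o < w)
    (hX : Fintype.card (Cells W) ≤ (M + 1) * w) (E : ℕ → Finset (ℕ × Q))
    (hnear : (univ.filter fun i : Fin m =>
      Near hW ht (fun e => ((P.order e : Fin _) : ℕ)) w i).card ≤ m / 2) :
    m * ((∑ D : Fin m → Bool, (nn (fun x y => Cls P T M (fun k => k * w + o) E
        (inp2 W m t x y)) D : ℝ)) / 64 - Real.exp (-(m : ℝ) / 160) * 4 ^ m) ≤
      ∑ i : Fin m, ∑ D : Fin m → Bool, (yy (fun x y => Cls P T M (fun k => k * w + o) E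
        (inp2 W m t x y)) D i : ℝ) := by
  set Nr := univ.filter fun i : Fin m =>
      Near hW ht (fun e => ((P.order e : Fin _) : ℕ)) w i with hNr
  refine corrupt _ (univ.filter fun i : Fin m =>
      ¬ Near hW ht (fun e => ((P.order e : Fin _) : ℕ)) w i) ?_ ?_
  · have h1 := card_filter_add_card_filter_not (s := (univ : Finset (Fin m)))
      (fun i : Fin m => Near hW ht (fun e => ((P.order e : Fin _) : ℕ)) w i)
    rw [card_univ, Fintype.card_fin, ← hNr] at h1
    omega
  · intro i hi
    have hfar := (mem_filter.1 hi).2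
    obtain ⟨g, hg⟩ : ∃ g : Cells W → ℕ, g = fun e => seg M (fun k => k * w + o) (P.order e) :=
      ⟨_, rfl⟩
    have hne : g (cB W m t hW ht i) ≠ g (cA W m hW i) := by
      intro h
      apply hfar
      obtain ⟨k, hk⟩ : ∃ k, k = g (cA W m hW i) := ⟨_, rfl⟩
      have e1 := seg_near (M := M) hw ho (lt_of_lt_of_le (P.order (cA W m hW i)).2 hX)
        (k := k) (by rw [hk, hg])
      have e2 := seg_near (M := M) hw ho (lt_of_lt_of_le (P.order (cB W m t hW ht i)).2 hX)
        (k := k) (by rw [hk, ← h, hg])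
      have h5 : (k + 1) * w ≤ (k - 1) * w + 2 * w := by
        rw [← Nat.add_mul]
        exact Nat.mul_le_mul_right _ (by omega)
      unfold Near
      simp only
      omega
    refine ⟨fun j => decide (g (cA W m hW j) = g (cA W m hW i)),
      fun j => decide (g (cB W m t hW ht j) = g (cA W m hW i)), by simp, by simpa using hne, ?_⟩
    intro x y x' y' h h'
    refine Cls.mix h h' (g (cA W m hW i)) fun e => ?_
    have := inp2_mix hW ht x y x' y' (fun e => decide (g e = g (cA W m hW i))) e
    rw [this]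
    simp only [decide_eq_true_eq, hg]

/-- all crossings together -/
noncomputable def evs {Q : Type} [DecidableEq Q] (T M w o : ℕ) (q : ℕ → Q) (h : ℕ → ℕ) :
    Finset (ℕ × (ℕ × Q)) :=
  (range M).biUnion fun k => (events T (k * w + o) q h).image fun p => (k, p)

/-- the crossings of one boundary -/
noncomputable def EU {Q : Type} [DecidableEq Q] (U : Finset (ℕ × (ℕ × Q))) (k : ℕ) :
    Finset (ℕ × Q) :=
  (U.filter fun p => p.1 = k).image Prod.snd

theorem mem_EU {Q : Type} [DecidableEq Q] {U : Finset (ℕ × (ℕ × Q))} {k : ℕ} {p : ℕ × Q} :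
    p ∈ EU U k ↔ (k, p) ∈ U := by
  unfold EU
  simp only [mem_image, mem_filter]
  constructor
  · rintro ⟨⟨k', p'⟩, ⟨h1, h2⟩, h3⟩
    simp only at h2 h3
    rw [← h2, ← h3]
    exact h1
  · intro h
    exact ⟨(k, p), ⟨h, rfl⟩, rfl⟩

theorem mem_evs {Q : Type} [DecidableEq Q] {T M w o : ℕ} {q : ℕ → Q} {h : ℕ → ℕ} {k : ℕ}
    {p : ℕ × Q} : (k, p) ∈ evs T M w o q h ↔ k < M ∧ p ∈ events T (k * w + o) q h := by
  unfold evs
  simp only [mem_biUnion, mem_range, mem_image, Prod.mk.injEq]
  constructor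
  · rintro ⟨k', h1, p', h2, rfl, rfl⟩
    exact ⟨h1, h2⟩
  · rintro ⟨h1, h2⟩
    exact ⟨k, h1, p, h2, rfl, rfl⟩

theorem mem_events {Q : Type} [DecidableEq Q] {T b : ℕ} {q : ℕ → Q} {h : ℕ → ℕ} {p : ℕ × Q}
    (hp : p ∈ events T b q h) : p.1 < T := by
  unfold events at hp
  obtain ⟨t, h1, h2⟩ := mem_image.1 hp
  rw [← h2]
  exact mem_range.1 (mem_filter.1 h1).1

/-- the total number of crossings -/
theorem sum_evs {Q : Type} [DecidableEq Q] (T M w : ℕ) (hw : 0 < w) (q : ℕ → Q) (h : ℕ → ℕ)
    (hstep : ∀ t < T, h (t + 1) ≤ h t + 1 ∧ h t ≤ h (t + 1) + 1) :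
    ∑ o ∈ range w, (evs T M w o q h).card ≤ T := by
  have h1 : ∀ o ∈ range w, (evs T M w o q h).card ≤ ∑ k ∈ range M,
      ((range T).filter fun t => ¬ (h t ≤ k * w + o ↔ h (t + 1) ≤ k * w + o)).card := by
    intro o _
    refine card_biUnion_le.trans (sum_le_sum fun k _ => ?_)
    exact card_image_le.trans card_image_le
  refine (sum_le_sum h1).trans ?_
  rw [← sum_product', ← card_biUnion]
  · calc _ ≤ (range T).card := card_le_card (by
            intro t ht
            obtain ⟨o, -, ho⟩ := mem_biUnion.1 ht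
            exact (mem_filter.1 ho).1)
        _ = T := card_range T
  · rintro ⟨o, k⟩ hok ⟨o', k'⟩ hok' hne
    rw [Function.onFun, Finset.disjoint_left]
    intro t ht ht'
    obtain ⟨a1, a2⟩ := mem_filter.1 ht
    obtain ⟨a3, a4⟩ := mem_filter.1 ht'
    have h2 := hstep t (mem_range.1 a1)
    rw [mem_coe, mem_product, mem_range, mem_range] at hok hok'
    simp only at a2 a4 hok hok'
    have h3 : k * w + o = k' * w + o' := by omega
    apply hne
    have e1 : k = k' := by
      have f1 : (k * w + o) / w = k := by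
        rw [Nat.mul_comm, Nat.mul_add_div hw, Nat.div_eq_of_lt hok.1, Nat.add_zero]
      have f2 : (k' * w + o') / w = k' := by
        rw [Nat.mul_comm, Nat.mul_add_div hw, Nat.div_eq_of_lt hok'.1, Nat.add_zero]
      rw [← f1, ← f2, h3]
    subst e1
    have e2 : o = o' := by omega
    rw [e2]

open Classical in
theorem one2 {W m t : ℕ} (hW : 7 * m ≤ W) (ht : t < m) {Q : Type} [Fintype Q]
    (P : TwoWay (Cells W) Q) (T M w L : ℕ) (hw : 0 < w)
    (hX : Fintype.card (Cells W) ≤ (M + 1) * w) (hL : 2 * T < (L + 1) * w)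
    (huniq : ∀ x q h q' h', P.Run T x q h → P.Run T x q' h' → ∀ t ≤ T, q t = q' t ∧ h t = h' t)
    (hnear : (univ.filter fun i : Fin m =>
      Near hW ht (fun e => ((P.order e : Fin _) : ℕ)) w i).card ≤ m / 2) :
    m * ((∑ D : Fin m → Bool, ((univ.filter fun z : Fin m → Bool =>
        P.Accepts T (inp2 W m t (cx D z) (cy D z))).card : ℝ)) / 128 -
          (M * (T * Fintype.card Q) + 1) ^ L * (Real.exp (-(m : ℝ) / 160) * 4 ^ m)) ≤
      ∑ i : Fin m, ∑ D : Fin m → Bool, ((univ.filter fun z : Fin m → Bool =>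
        P.Accepts T (inp2 W m t (Function.update (cx D z) i true)
          (Function.update (cy D z) i true))).card : ℝ) := by
  obtain ⟨𝒰, h𝒰⟩ : ∃ 𝒰 : Finset (Finset (ℕ × (ℕ × Q))), 𝒰 =
    ((range M ×ˢ (range T ×ˢ (univ : Finset Q))).powerset.filter fun U => U.card ≤ L) := ⟨_, rfl⟩
  have h𝒰c : (𝒰.card : ℝ) ≤ (M * (T * Fintype.card Q) + 1) ^ L := by
    have := card_small (range M ×ˢ (range T ×ˢ (univ : Finset Q))) L
    rw [← h𝒰, card_product, card_product, card_range, card_range, card_univ] at this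
    exact_mod_cast this
  -- the class of an accepted input
  have hcls : ∀ x q h, P.Run T x q h → ∀ o, Cls P T M (fun k => k * w + o)
      (EU (evs T M w o q h)) x := by
    intro x q h hr o
    refine ⟨q, h, hr, fun k hk => ?_⟩
    ext p
    rw [mem_EU, mem_evs]
    exact ⟨fun h => ⟨hk, h⟩, fun h => h.2⟩
  have hU : ∀ q h o, (evs T M w o q h).card ≤ L → evs T M w o q h ∈ 𝒰 := by
    intro q h o hc
    rw [h𝒰, mem_filter, mem_powerset]
    refine ⟨?_, hc⟩
    rintro ⟨k, p⟩ hp
    rw [mem_evs] at hp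
    rw [mem_product, mem_product, mem_range, mem_range]
    exact ⟨hp.1, mem_events hp.2, mem_univ _⟩
  -- disjointness
  have hdis : ∀ o x, ∀ U ∈ 𝒰, ∀ U' ∈ 𝒰, Cls P T M (fun k => k * w + o) (EU U) x →
      Cls P T M (fun k => k * w + o) (EU U') x → U = U' := by
    have hsub : ∀ o x, ∀ U ∈ 𝒰, ∀ U' ∈ 𝒰, Cls P T M (fun k => k * w + o) (EU U) x →
        Cls P T M (fun k => k * w + o) (EU U') x → U ⊆ U' := by
      intro o x U hU1 U' hU2 h1 h2
      obtain ⟨q, h, hr, he⟩ := h1
      obtain ⟨q', h', hr', he'⟩ := h2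
      have hu := huniq x q h q' h' hr hr'
      rintro ⟨k, p⟩ hp
      rw [h𝒰, mem_filter, mem_powerset] at hU1
      have hk : k < M := by
        have := hU1.1 hp
        rw [mem_product, mem_range] at this
        exact this.1
      rw [← mem_EU, ← he' k hk]
      have h3 : p ∈ events T (k * w + o) q h := by
        rw [← mem_EU, ← he k hk] at hp
        exact hp
      unfold events at h3 ⊢
      obtain ⟨t', h4, h5⟩ := mem_image.1 h3
      obtain ⟨h6, h7⟩ := mem_filter.1 h4
      have h8 := mem_range.1 h6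
      refine mem_image.2 ⟨t', mem_filter.2 ⟨h6, ?_⟩, ?_⟩
      · rw [← (hu t' h8.le).2, ← (hu (t' + 1) h8).2]
        exact h7
      · rw [← (hu (t' + 1) h8).1]
        exact h5
    intro o x U hU1 U' hU2 h1 h2
    exact Subset.antisymm (hsub o x U hU1 U' hU2 h1 h2) (hsub o x U' hU2 U hU1 h2 h1)
  have hacc : ∀ o x, ∀ E, Cls P T M (fun k => k * w + o) E x → P.Accepts T x := by
    rintro o x E ⟨q, h, hr, -⟩
    exact ⟨q, h, hr⟩
  -- few crossings
  obtain ⟨Gd, hGd⟩ : ∃ Gd : ℕ → (Cells W → Bool) → Prop, Gd = fun o x =>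
    ∃ q h, P.Run T x q h ∧ (evs T M w o q h).card ≤ L := ⟨_, rfl⟩
  have hGdc : ∀ x, P.Accepts T x → (w : ℝ) / 2 ≤ ((range w).filter fun o => Gd o x).card := by
    rintro x ⟨q, h, hr⟩
    have h1 := sum_evs T M w hw q h fun t' ht' => P.local_step _ _ _ _ _ _ (hr.2.2.2 t' ht')
    have h2 : ((range w).filter fun o => ¬ Gd o x).card * (L + 1) ≤ T := by
      calc ((range w).filter fun o => ¬ Gd o x).card * (L + 1)
          = ∑ _o ∈ (range w).filter fun o => ¬ Gd o x, (L + 1) := by rw [sum_const, smul_eq_mul]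
        _ ≤ ∑ o ∈ (range w).filter fun o => ¬ Gd o x, (evs T M w o q h).card := by
            refine sum_le_sum fun o ho => ?_
            have h3 := (mem_filter.1 ho).2
            rw [hGd] at h3
            by_contra hcon
            exact h3 ⟨q, h, hr, by omega⟩
        _ ≤ ∑ o ∈ range w, (evs T M w o q h).card :=
            sum_le_sum_of_subset (filter_subset _ _)
        _ ≤ T := h1
    have h3 := card_filter_add_card_filter_not (s := range w) (fun o => Gd o x)
    rw [card_range] at h3
    have h4 : 2 * ((range w).filter fun o => ¬ Gd o x).card ≤ w := by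
      by_contra hcon
      push Not at hcon
      have h5 : (L + 1) * w ≤ (L + 1) * (2 * ((range w).filter fun o => ¬ Gd o x).card) :=
        Nat.mul_le_mul_left _ hcon.le
      nlinarith
    have h5 : w ≤ 2 * ((range w).filter fun o => Gd o x).card := by omega
    have h6 : (w : ℝ) ≤ 2 * ((range w).filter fun o => Gd o x).card := by exact_mod_cast h5
    linarith
  set θ : ℝ := Real.exp (-(m : ℝ) / 160) * 4 ^ m with hθ
  have hθ0 : 0 ≤ θ := by positivity
  set Y : ℝ := ∑ i : Fin m, ∑ D : Fin m → Bool, ((univ.filter fun z : Fin m → Bool =>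
        P.Accepts T (inp2 W m t (Function.update (cx D z) i true)
          (Function.update (cy D z) i true))).card : ℝ) with hY
  have hm0 : (0 : ℝ) ≤ m := Nat.cast_nonneg m
  -- one value of `o`
  have hone : ∀ o < w, m * ((∑ D : Fin m → Bool, ((univ.filter fun z : Fin m → Bool =>
      Gd o (inp2 W m t (cx D z) (cy D z))).card : ℝ)) / 64 - 𝒰.card * θ) ≤ Y := by
    intro o ho
    have h1 := sum_le_sum fun U (_ : U ∈ 𝒰) =>
      class_ineq hW ht P T M w o hw ho hX (EU U) hnear
    rw [← hθ, ← mul_sum, sum_sub_distrib, ← sum_div, sum_const, nsmul_eq_mul] at h1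
    have h2 : ∑ D : Fin m → Bool, ((univ.filter fun z : Fin m → Bool =>
        Gd o (inp2 W m t (cx D z) (cy D z))).card : ℝ) ≤
        ∑ U ∈ 𝒰, ∑ D : Fin m → Bool, (nn (fun x y => Cls P T M (fun k => k * w + o) (EU U)
        (inp2 W m t x y)) D : ℝ) := by
      rw [sum_comm]
      refine sum_le_sum fun D _ => ?_
      have h3 : (univ.filter fun z : Fin m → Bool =>
          Gd o (inp2 W m t (cx D z) (cy D z))) ⊆ 𝒰.biUnion fun U =>
          univ.filter fun z : Fin m → Bool => Cls P T M (fun k => k * w + o) (EU U)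
            (inp2 W m t (cx D z) (cy D z)) := by
        intro z hz
        have h4 := (mem_filter.1 hz).2
        rw [hGd] at h4
        obtain ⟨q, h, hr, hc⟩ := h4
        exact mem_biUnion.2 ⟨_, hU q h o hc, mem_filter.2 ⟨mem_univ _, hcls _ q h hr o⟩⟩
      have h4 := (card_le_card h3).trans card_biUnion_le
      unfold nn
      exact_mod_cast h4
    have h3 : ∑ U ∈ 𝒰, ∑ i : Fin m, ∑ D : Fin m → Bool,
        (yy (fun x y => Cls P T M (fun k => k * w + o) (EU U) (inp2 W m t x y)) D i : ℝ) ≤ Y := by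
      rw [sum_comm, hY]
      refine sum_le_sum fun i _ => ?_
      rw [sum_comm]
      refine sum_le_sum fun D _ => ?_
      unfold yy
      rw [← Nat.cast_sum, ← card_biUnion]
      · have h4 : (𝒰.biUnion fun U => univ.filter fun z : Fin m → Bool =>
            Cls P T M (fun k => k * w + o) (EU U) (inp2 W m t (Function.update (cx D z) i true)
              (Function.update (cy D z) i true))) ⊆ univ.filter fun z : Fin m → Bool =>
            P.Accepts T (inp2 W m t (Function.update (cx D z) i true)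
              (Function.update (cy D z) i true)) := by
          intro z hz
          obtain ⟨U, -, h5⟩ := mem_biUnion.1 hz
          exact mem_filter.2 ⟨mem_univ _, hacc o _ _ (mem_filter.1 h5).2⟩
        exact_mod_cast card_le_card h4
      · intro U hU1 U' hU2 hne
        rw [Function.onFun, Finset.disjoint_left]
        intro z hz hz'
        exact hne (hdis o _ U hU1 U' hU2 (mem_filter.1 hz).2 (mem_filter.1 hz').2)
    refine le_trans ?_ (h1.trans h3)
    refine mul_le_mul_of_nonneg_left ?_ hm0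
    linarith
  -- sum over `o`
  have hsum := sum_le_sum fun o (ho : o ∈ range w) => hone o (mem_range.1 ho)
  rw [← mul_sum, sum_sub_distrib, ← sum_div, sum_const, sum_const, card_range, nsmul_eq_mul,
    nsmul_eq_mul] at hsum
  have h2 : (w : ℝ) / 2 * ∑ D : Fin m → Bool, ((univ.filter fun z : Fin m → Bool =>
        P.Accepts T (inp2 W m t (cx D z) (cy D z))).card : ℝ) ≤
      ∑ o ∈ range w, ∑ D : Fin m → Bool, ((univ.filter fun z : Fin m → Bool =>
        Gd o (inp2 W m t (cx D z) (cy D z))).card : ℝ) := by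
    rw [sum_comm, mul_sum]
    refine sum_le_sum fun D _ => ?_
    have h3 : ∑ o ∈ range w, ((univ.filter fun z : Fin m → Bool =>
        Gd o (inp2 W m t (cx D z) (cy D z))).card : ℝ) =
        ∑ z : Fin m → Bool, (((range w).filter fun o =>
          Gd o (inp2 W m t (cx D z) (cy D z))).card : ℝ) := by
      simp only [card_filter]
      push_cast
      exact sum_comm
    rw [h3]
    calc (w : ℝ) / 2 * ((univ.filter fun z : Fin m → Bool =>
          P.Accepts T (inp2 W m t (cx D z) (cy D z))).card : ℝ)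
        = ∑ _z ∈ univ.filter fun z : Fin m → Bool =>
          P.Accepts T (inp2 W m t (cx D z) (cy D z)), (w : ℝ) / 2 := by
          rw [sum_const, nsmul_eq_mul, mul_comm]
      _ ≤ ∑ z ∈ univ.filter fun z : Fin m → Bool =>
          P.Accepts T (inp2 W m t (cx D z) (cy D z)), (((range w).filter fun o =>
          Gd o (inp2 W m t (cx D z) (cy D z))).card : ℝ) :=
          sum_le_sum fun z hz => hGdc _ (mem_filter.1 hz).2
      _ ≤ _ := sum_le_sum_of_subset_of_nonneg (subset_univ _) fun _ _ _ => Nat.cast_nonneg _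
  have hw0 : (0 : ℝ) < w := by exact_mod_cast hw
  have h3 : (w : ℝ) * (m * ((∑ D : Fin m → Bool, ((univ.filter fun z : Fin m → Bool =>
        P.Accepts T (inp2 W m t (cx D z) (cy D z))).card : ℝ)) / 128 -
          (M * (T * Fintype.card Q) + 1) ^ L * θ)) ≤ w * Y := by
    refine le_trans ?_ hsum
    have h4 : ((𝒰.card : ℝ) * θ) ≤ (M * (T * Fintype.card Q) + 1) ^ L * θ :=
      mul_le_mul_of_nonneg_right h𝒰c hθ0
    have h5 := mul_le_mul_of_nonneg_left h4 hw0.le
    rw [mul_left_comm]
    refine mul_le_mul_of_nonneg_left ?_ hm0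
    rw [mul_sub]
    linarith
  exact le_of_mul_le_mul_left h3 hw0

end Pool.Agent.Helper68K9.TB
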