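import Pool.Agent.Helper68K9.TB.Final

set_option autoImplicit false

/-!
# 3SUM: the matching deterministic program
-/

namespace Pool.Agent.Helper68K9.TB

open Finset Pool.Agent.Helper62K9.TW Pool.Agent.Helper68K9.TS

/-- the program that stores the input -/
def store (W : ℕ) (o : Cells W ≃ Fin (Fintype.card (Cells W))) :
    TwoWay (Cells W) (Cells W → Bool) where
  order := o
  start := fun _ => false
  step _ q j b q' j' := q' = (if h : j < Fintype.card (Cells W) then
    Function.update q (o.symm ⟨j, h⟩) b else q) ∧ j' = j + 1
  local_step := by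
    rintro t q j b q' j' ⟨-, h⟩
    omega
  final q := ¬ HasSol q

theorem upper2 (W : ℕ) (o : Cells W ≃ Fin (Fintype.card (Cells W))) :
    ∃ (Q : Type) (_ : Fintype Q) (P : TwoWay (Cells W) Q),
      Fintype.card Q = 2 ^ (2 * W + 1) ∧ P.order = o ∧ Deterministic P ∧
      (∀ t q j b q' j', P.step t q j b q' j' → j' = j + 1) ∧
      ∀ x : Cells W → Bool, P.Accepts (2 * W + 1) x ↔ ¬ HasSol x := by
  classical
  refine ⟨Cells W → Bool, inferInstance, store W o, ?_, rfl, ?_, fun t q j b q' j' h => h.2, ?_⟩
  · rw [Fintype.card_fun, card_cells, Fintype.card_bool]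
  · intro t q j b
    exact ⟨_, _, fun q'' j'' => Iff.rfl⟩
  · intro x
    have hN := card_cells W
    rw [← hN]
    obtain ⟨c, hc⟩ : ∃ c : ℕ → Cells W → Bool, c = fun t v => if (o v : ℕ) < t then x v else false :=
      ⟨_, rfl⟩
    have hstep : ∀ t (ht : t < Fintype.card (Cells W)),
        c (t + 1) = Function.update (c t) (o.symm ⟨t, ht⟩) ((store W o).bit x t) := by
      intro t ht
      have hbit : (store W o).bit x t = x (o.symm ⟨t, ht⟩) := by
        unfold TwoWay.bit
        rw [dif_pos ht]
        rfl
      rw [hbit]
      funext v
      by_cases hv : v = o.symm ⟨t, ht⟩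
      · subst hv
        simp [hc]
      · rw [Function.update_of_ne hv, hc]
        simp only
        have h1 : (o v : ℕ) ≠ t := by
          intro h
          apply hv
          rw [Equiv.eq_symm_apply]
          exact Fin.ext h
        by_cases h2 : (o v : ℕ) < t
        · rw [if_pos h2, if_pos (by omega)]
        · rw [if_neg h2, if_neg (by omega)]
    have hlast : c (Fintype.card (Cells W)) = x := by
      funext v
      rw [hc]
      simp only
      rw [if_pos (o v).2]
    have hfirst : c 0 = fun _ => false := by
      funext v
      rw [hc]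
      simp
    constructor
    · rintro ⟨q, h, h1, h2, h3, h4⟩
      have hall : ∀ t ≤ Fintype.card (Cells W), h t = t ∧ q t = c t := by
        intro t
        induction t with
        | zero => exact fun _ => ⟨h2, h1.trans hfirst.symm⟩
        | succ t ih =>
          intro ht
          obtain ⟨e1, e2⟩ := ih (by omega)
          obtain ⟨f1, f2⟩ := h4 t (by omega)
          rw [e1, dif_pos (by omega : t < Fintype.card (Cells W)), e2] at f1
          rw [e1] at f2
          exact ⟨f2, f1.trans (hstep t (by omega)).symm⟩
      have h5 := (hall _ le_rfl).2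
      rw [h5, hlast] at h3
      exact h3
    · intro hx
      refine ⟨c, fun t => t, hfirst, rfl, ?_, ?_⟩
      · rw [hlast]
        exact hx
      · intro t ht
        refine ⟨?_, rfl⟩
        rw [dif_pos ht]
        exact hstep t ht

end Pool.Agent.Helper68K9.TB
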